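import Pool.Agent.H68.L.R_seed8.Y697.CJ.LAJ

/-!
# The joint version of project CQ: the constant
-/

set_option autoImplicit false

open scoped Classical

namespace Pool.Agent.Y697.CJ

open Finset Module Function
open Pool.Agent.Y703.CQ (prs GdA c2)
open Pool.Agent.Y697.PQ (gi)

theorem gi_eq : gi = c2 := by
  have hLA := Pool.Agent.Y219.CQ.t_LA Pool.Agent.Y839.CQ.t_SYM Pool.Agent.Y948.CQ.t_C2
  have key : ∀ ε : ℝ, 0 < ε → |gi - c2| ≤ 3 * ε := by
    intro ε hε
    obtain ⟨R, hR⟩ := laj_g 1 ε hε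
    obtain ⟨n₀, hn₀⟩ : ∃ n₀ : ℕ, 1 / ε < 2 ^ n₀ := pow_unbounded_of_one_lt _ (by norm_num)
    set n : ℕ := R + n₀ with hn
    set J1 : Finset (Fin (n + 1)) := univ.erase (Fin.last n) with hJ1
    have hcard : J1.card = n := by
      rw [hJ1, card_erase_of_mem (mem_univ _), card_univ, Fintype.card_fin]
      omega
    have hlast : ∃ l, l ∉ J1 := ⟨Fin.last n, notMem_erase _ _⟩
    have h1 := hR (Fin 0) (Fin (n + 1)) ∅ J1 hlast (fun _ _ => 0) (fun _ _ => 0) (fun _ _ => 0)
      (fun _ => 0) (fun _ => 0) (fun u => u.elim0) (fun u => u.elim0)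
      (fun w _ h => by
        obtain ⟨u, _⟩ := h
        exact u.elim0) (fun _ => ∅) R (by simp) (by rw [hcard]; omega)
      (fun k l hkl => absurd (Subsingleton.elim k l) hkl)
    have h2 := hLA (Fin 0) (Fin (n + 1)) ∅ J1 hlast (fun _ _ => 0) (fun _ _ => 0) (fun _ _ => 0)
      (fun _ => 0) (fun _ => 0) (fun u => u.elim0) (fun u => u.elim0)
      (fun w _ h => by
        obtain ⟨u, _⟩ := h
        exact u.elim0)
    have h3 : (univ.filter fun α : prs J1 → ZMod 2 => ∀ _ : Fin 1,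
        GdM (U := Fin 0) ∅ J1 ∅ (fun _ _ => 0) (fun _ _ => 0) (fun _ _ => 0)
          (Pool.Agent.Y703.CQ.ext α) (fun _ => 0) (fun _ => 0)) =
        univ.filter fun α : prs J1 → ZMod 2 => GdA (U := Fin 0) ∅ J1 (fun _ _ => 0)
          (fun _ _ => 0) (fun _ _ => 0) (Pool.Agent.Y703.CQ.ext α) (fun _ => 0) (fun _ => 0) := by
      ext α
      simp only [mem_filter, mem_univ, true_and, GdM, ite_self, empty_inter, forall_const]
    rw [pow_one] at h1
    rw [← h3, card_empty, pow_zero, hcard] at h2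
    have h4 : (2 : ℝ) * (1 / 2 ^ n) ≤ 2 * ε := by
      have h5 : (1 : ℝ) / ε < 2 ^ n := by
        refine hn₀.trans_le ?_
        exact pow_le_pow_right₀ (by norm_num) (by omega)
      have h6 : (0 : ℝ) < 2 ^ n := by positivity
      rw [div_lt_iff₀ hε] at h5
      have h7 : (1 : ℝ) / 2 ^ n ≤ ε := by
        rw [div_le_iff₀ h6]
        linarith
      linarith
    rw [abs_le] at h1 h2 ⊢
    constructor
    · linarith [h1.1, h1.2, h2.1, h2.2]
    · linarith [h1.1, h1.2, h2.1, h2.2]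
  by_contra hne
  have h5 : 0 < |gi - c2| := abs_pos.2 (sub_ne_zero.2 hne)
  have h6 := key (|gi - c2| / 4) (by linarith)
  linarith

end Pool.Agent.Y697.CJ
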